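import Pool.Agent.R341.Salem6
import Pool.Agent.R341.Greedy

set_option autoImplicit false

open Polynomial

namespace Pool.Agent.Results.MP_9c9d6b_nt.NonReciprocal

open Pool.Agent.R341.Salem6 Pool.Agent.R341.Greedy

/-- the digits `c₂, …, c₃₃` -/
def tab : Fin 32 → ℤ := ![2, 4, 1, 0, 4, 0, 5, 1, 0, 0, 4, 2, 2, 1, 2, 4, 1, 4, 0, 3, 3, 5, 0, 5, 0, 4, 0, 1, 4, 2, 4, 4]

/-- the co-factor -/
noncomputable def Q : ℤ[X] :=
  X ^ 27 + X ^ 25 - X ^ 24 + 2 * X ^ 20 - X ^ 19 + X ^ 18 - 2 * X ^ 17 + X ^ 16 + X ^ 14 + X ^ 13 - X ^ 12 + X ^ 11 - 2 * X ^ 10 + 2 * X ^ 9 - X ^ 8 + 2 * X ^ 7 - X ^ 3 + X ^ 2 + 1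

lemma exists_beta : ∃ β : ℝ, (2751210509599/500000000000 : ℝ) < β ∧ β < 5502421019199/1000000000000 ∧
    aeval β (P (-5) (-3) 2) = 0 := by
  have hc : Continuous fun x : ℝ => aeval x (P (-5) (-3) 2) := by
    simp only [aeval_P]; fun_prop
  have h1 : aeval (2751210509599/500000000000 : ℝ) (P (-5) (-3) 2) < 0 := by
    rw [aeval_P]; norm_num
  have h2 : 0 < aeval (5502421019199/1000000000000 : ℝ) (P (-5) (-3) 2) := by
    rw [aeval_P]; norm_num
  obtain ⟨x, hx, hx0⟩ := intermediate_value_Ioo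
    (show (2751210509599/500000000000 : ℝ) ≤ 5502421019199/1000000000000 by norm_num) hc.continuousOn ⟨h1, h2⟩
  exact ⟨x, hx.1, hx.2, hx0⟩

lemma digits {β : ℝ} (hL : (2751210509599/500000000000 : ℝ) < β) (hU : β < 5502421019199/1000000000000)
    (hP' : aeval β (P (-5) (-3) 2) = 0) :
    r β (1 + 32) = r β 1 ∧ c β 1 = 5 ∧ ∀ i : Fin 32, c β (i + 1 + 1) = tab i := by
  have hP : β ^ 6 - 5 * β ^ 5 - 3 * β ^ 4 + 2 * β ^ 3 - 3 * β ^ 2 - 5 * β + 1 = 0 := by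
    rw [aeval_P] at hP'
    push_cast at hP'
    linear_combination hP'
  have L2 : (2751210509599/500000000000 : ℝ) ^ 2 < β ^ 2 := by gcongr
  have U2 : β ^ 2 < (5502421019199/1000000000000 : ℝ) ^ 2 := by gcongr
  have L3 : (2751210509599/500000000000 : ℝ) ^ 3 < β ^ 3 := by gcongr
  have U3 : β ^ 3 < (5502421019199/1000000000000 : ℝ) ^ 3 := by gcongr
  have L4 : (2751210509599/500000000000 : ℝ) ^ 4 < β ^ 4 := by gcongr
  have U4 : β ^ 4 < (5502421019199/1000000000000 : ℝ) ^ 4 := by gcongr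
  have L5 : (2751210509599/500000000000 : ℝ) ^ 5 < β ^ 5 := by gcongr
  have U5 : β ^ 5 < (5502421019199/1000000000000 : ℝ) ^ 5 := by gcongr
  norm_num at L2 U2 L3 U3 L4 U4 L5 U5
  have h0 : r β 0 = 1 := rfl
  obtain ⟨c1, h1⟩ := step (w := β - 5) (d := 5) h0 (by push_cast; linear_combination (0 : ℝ) * hP) (by linarith) (by linarith)
  obtain ⟨c2, h2⟩ := step (w := β ^ 2 - 5 * β - 2) (d := 2) h1 (by push_cast; linear_combination (0 : ℝ) * hP) (by linarith) (by linarith)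
  obtain ⟨c3, h3⟩ := step (w := β ^ 3 - 5 * β ^ 2 - 2 * β - 4) (d := 4) h2 (by push_cast; linear_combination (0 : ℝ) * hP) (by linarith) (by linarith)
  obtain ⟨c4, h4⟩ := step (w := β ^ 4 - 5 * β ^ 3 - 2 * β ^ 2 - 4 * β - 1) (d := 1) h3 (by push_cast; linear_combination (0 : ℝ) * hP) (by linarith) (by linarith)
  obtain ⟨c5, h5⟩ := step (w := β ^ 5 - 5 * β ^ 4 - 2 * β ^ 3 - 4 * β ^ 2 - β) (d := 0) h4 (by push_cast; linear_combination (0 : ℝ) * hP) (by linarith) (by linarith)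
  obtain ⟨c6, h6⟩ := step (w := β ^ 4 - 6 * β ^ 3 + 2 * β ^ 2 + 5 * β - 5) (d := 4) h5 (by push_cast; linear_combination (1 : ℝ) * hP) (by linarith) (by linarith)
  obtain ⟨c7, h7⟩ := step (w := β ^ 5 - 6 * β ^ 4 + 2 * β ^ 3 + 5 * β ^ 2 - 5 * β) (d := 0) h6 (by push_cast; linear_combination (0 : ℝ) * hP) (by linarith) (by linarith)
  obtain ⟨c8, h8⟩ := step (w := -β ^ 5 + 5 * β ^ 4 + 3 * β ^ 3 - 2 * β ^ 2 + 5 * β - 6) (d := 5) h7 (by push_cast; linear_combination (1 : ℝ) * hP) (by linarith) (by linarith)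
  obtain ⟨c9, h9⟩ := step (w := 2 * β ^ 2 - 11 * β) (d := 1) h8 (by push_cast; linear_combination (-1 : ℝ) * hP) (by linarith) (by linarith)
  obtain ⟨c10, h10⟩ := step (w := 2 * β ^ 3 - 11 * β ^ 2) (d := 0) h9 (by push_cast; linear_combination (0 : ℝ) * hP) (by linarith) (by linarith)
  obtain ⟨c11, h11⟩ := step (w := 2 * β ^ 4 - 11 * β ^ 3) (d := 0) h10 (by push_cast; linear_combination (0 : ℝ) * hP) (by linarith) (by linarith)
  obtain ⟨c12, h12⟩ := step (w := 2 * β ^ 5 - 11 * β ^ 4 - 4) (d := 4) h11 (by push_cast; linear_combination (0 : ℝ) * hP) (by linarith) (by linarith)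
  obtain ⟨c13, h13⟩ := step (w := -β ^ 5 + 6 * β ^ 4 - 4 * β ^ 3 + 6 * β ^ 2 + 6 * β - 4) (d := 2) h12 (by push_cast; linear_combination (2 : ℝ) * hP) (by linarith) (by linarith)
  obtain ⟨c14, h14⟩ := step (w := β ^ 5 - 7 * β ^ 4 + 8 * β ^ 3 + 3 * β ^ 2 - 9 * β - 1) (d := 2) h13 (by push_cast; linear_combination (-1 : ℝ) * hP) (by linarith) (by linarith)
  obtain ⟨c15, h15⟩ := step (w := -2 * β ^ 5 + 11 * β ^ 4 + β ^ 3 - 6 * β ^ 2 + 4 * β - 2) (d := 1) h14 (by push_cast; linear_combination (1 : ℝ) * hP) (by linarith) (by linarith)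
  obtain ⟨c16, h16⟩ := step (w := β ^ 5 - 5 * β ^ 4 - 2 * β ^ 3 - 2 * β ^ 2 - 12 * β) (d := 2) h15 (by push_cast; linear_combination (-2 : ℝ) * hP) (by linarith) (by linarith)
  obtain ⟨c17, h17⟩ := step (w := β ^ 4 - 4 * β ^ 3 - 9 * β ^ 2 + 5 * β - 5) (d := 4) h16 (by push_cast; linear_combination (1 : ℝ) * hP) (by linarith) (by linarith)
  obtain ⟨c18, h18⟩ := step (w := β ^ 5 - 4 * β ^ 4 - 9 * β ^ 3 + 5 * β ^ 2 - 5 * β - 1) (d := 1) h17 (by push_cast; linear_combination (0 : ℝ) * hP) (by linarith) (by linarith)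
  obtain ⟨c19, h19⟩ := step (w := β ^ 5 - 6 * β ^ 4 + 3 * β ^ 3 - 2 * β ^ 2 + 4 * β - 5) (d := 4) h18 (by push_cast; linear_combination (1 : ℝ) * hP) (by linarith) (by linarith)
  obtain ⟨c20, h20⟩ := step (w := -β ^ 5 + 6 * β ^ 4 - 4 * β ^ 3 + 7 * β ^ 2 - 1) (d := 0) h19 (by push_cast; linear_combination (1 : ℝ) * hP) (by linarith) (by linarith)
  obtain ⟨c21, h21⟩ := step (w := β ^ 5 - 7 * β ^ 4 + 9 * β ^ 3 - 3 * β ^ 2 - 6 * β - 2) (d := 3) h20 (by push_cast; linear_combination (-1 : ℝ) * hP) (by linarith) (by linarith)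
  obtain ⟨c22, h22⟩ := step (w := -2 * β ^ 5 + 12 * β ^ 4 - 5 * β ^ 3 - 3 * β ^ 2 + 3 * β - 4) (d := 3) h21 (by push_cast; linear_combination (1 : ℝ) * hP) (by linarith) (by linarith)
  obtain ⟨c23, h23⟩ := step (w := 2 * β ^ 5 - 11 * β ^ 4 + β ^ 3 - 3 * β ^ 2 - 14 * β - 3) (d := 5) h22 (by push_cast; linear_combination (-2 : ℝ) * hP) (by linarith) (by linarith)
  obtain ⟨c24, h24⟩ := step (w := -β ^ 5 + 7 * β ^ 4 - 7 * β ^ 3 - 8 * β ^ 2 + 7 * β - 2) (d := 0) h23 (by push_cast; linear_combination (2 : ℝ) * hP) (by linarith) (by linarith)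
  obtain ⟨c25, h25⟩ := step (w := 2 * β ^ 5 - 10 * β ^ 4 - 6 * β ^ 3 + 4 * β ^ 2 - 7 * β - 4) (d := 5) h24 (by push_cast; linear_combination (-1 : ℝ) * hP) (by linarith) (by linarith)
  obtain ⟨c26, h26⟩ := step (w := -β ^ 2 + 6 * β - 2) (d := 0) h25 (by push_cast; linear_combination (2 : ℝ) * hP) (by linarith) (by linarith)
  obtain ⟨c27, h27⟩ := step (w := -β ^ 3 + 6 * β ^ 2 - 2 * β - 4) (d := 4) h26 (by push_cast; linear_combination (0 : ℝ) * hP) (by linarith) (by linarith)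
  obtain ⟨c28, h28⟩ := step (w := -β ^ 4 + 6 * β ^ 3 - 2 * β ^ 2 - 4 * β) (d := 0) h27 (by push_cast; linear_combination (0 : ℝ) * hP) (by linarith) (by linarith)
  obtain ⟨c29, h29⟩ := step (w := -β ^ 5 + 6 * β ^ 4 - 2 * β ^ 3 - 4 * β ^ 2 - 1) (d := 1) h28 (by push_cast; linear_combination (0 : ℝ) * hP) (by linarith) (by linarith)
  obtain ⟨c30, h30⟩ := step (w := β ^ 5 - 5 * β ^ 4 - 2 * β ^ 3 - 3 * β ^ 2 - 6 * β - 3) (d := 4) h29 (by push_cast; linear_combination (-1 : ℝ) * hP) (by linarith) (by linarith)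
  obtain ⟨c31, h31⟩ := step (w := β ^ 4 - 5 * β ^ 3 - 3 * β ^ 2 + 2 * β - 3) (d := 2) h30 (by push_cast; linear_combination (1 : ℝ) * hP) (by linarith) (by linarith)
  obtain ⟨c32, h32⟩ := step (w := β ^ 5 - 5 * β ^ 4 - 3 * β ^ 3 + 2 * β ^ 2 - 3 * β - 4) (d := 4) h31 (by push_cast; linear_combination (0 : ℝ) * hP) (by linarith) (by linarith)
  obtain ⟨c33, h33⟩ := step (w := β - 5) (d := 4) h32 (by push_cast; linear_combination (1 : ℝ) * hP) (by linarith) (by linarith)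
  norm_num at c1 c2 c3 c4 c5 c6 c7 c8 c9 c10 c11 c12 c13 c14 c15 c16 c17 c18 c19 c20 c21 c22 c23 c24 c25 c26 c27 c28 c29 c30 c31 c32 c33
  refine ⟨?_, c1, ?_⟩
  · rw [show (1 + 32 : ℕ) = 32 + 1 from rfl, h33, h1]
  · intro i
    fin_cases i <;> simp [tab] <;> assumption

/-- the list of digits -/
def D (j : ℕ) : ℤ := [5, 2, 4, 1, 0, 4, 0, 5, 1, 0, 0, 4, 2, 2, 1, 2, 4, 1, 4, 0, 3, 3, 5, 0, 5, 0, 4, 0, 1, 4, 2, 4, 4].getD (j - 1) 0

lemma digits' {β : ℝ} (h1 : c β 1 = 5) (h2 : ∀ i : Fin 32, c β (i + 1 + 1) = tab i) :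
    ∀ j ∈ Finset.Icc 1 33, c β j = D j := by
  intro j hj
  rw [Finset.mem_Icc] at hj
  rcases Nat.lt_or_ge j 2 with h | h
  · have : j = 1 := by omega
    subst this
    rw [h1, D]; rfl
  · have h3 := h2 ⟨j - 2, by omega⟩
    have h4 : ((⟨j - 2, by omega⟩ : Fin 32) : ℕ) + 1 + 1 = j := by simp; omega
    rw [h4] at h3
    rw [h3]
    have h5 : ∀ i : Fin 32, tab i = D (i + 2) := by
      intro i; fin_cases i <;> rfl
    rw [h5]
    congr 1

lemma companion {β : ℝ} (h1 : c β 1 = 5) (h2 : ∀ i : Fin 32, c β (i + 1 + 1) = tab i) :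
    Pk β (1 + 32) - Pk β 1 = P (-5) (-3) 2 * Q := by
  have e : Pk β (1 + 32) = X ^ 33 - ∑ j ∈ Finset.Icc 1 33, C (D j) * X ^ (33 - j) := by
    have e0 : ∑ j ∈ Finset.Icc 1 33, C (c β j) * (X : ℤ[X]) ^ (33 - j)
        = ∑ j ∈ Finset.Icc 1 33, C (D j) * X ^ (33 - j) :=
      Finset.sum_congr rfl (fun j hj => by rw [digits' h1 h2 j hj])
    rw [← e0, Pk]
  rw [e]
  unfold Pk
  simp [Finset.sum_Icc_succ_top, D, P, Q, h1]
  ring

lemma Q_not_reciprocal : Q.reverse ≠ Q := by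
  intro h
  have hd : Q.natDegree = 27 := by
    unfold Q; compute_degree!
  have h9 := congrArg (fun q : ℤ[X] => q.coeff 9) h
  simp only [coeff_reverse, hd] at h9
  rw [show revAt 27 9 = 18 from rfl] at h9
  have e1 : Q.coeff 18 = 1 := by
    unfold Q
    simp [coeff_one, coeff_X_pow, coeff_ofNat_mul]
  have e2 : Q.coeff 9 = 2 := by
    unfold Q
    simp [coeff_one, coeff_X_pow, coeff_ofNat_mul]
  rw [e1, e2] at h9
  norm_num at h9

lemma shape {β : ℝ} (h0 : r β (1 + 32) = r β 1) (h1 : c β 1 = 5)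
    (h2 : ∀ i : Fin 32, c β (i + 1 + 1) = tab i) : Shape β 1 32 := by
  have hE : EvPer β 1 32 := ⟨by norm_num, fun n hn => c_add h0 n hn⟩
  refine ⟨hE, ?_⟩
  intro m' p' ⟨hp', hE'⟩
  constructor
  · by_contra hm
    have : m' = 0 := by omega
    subst this
    have a1 := c_add_mul hE' 32 1 le_rfl
    have a2 := c_add_mul hE.2 (p' - 1) 32 (by norm_num)
    have e1 : 1 + 0 + 32 * p' = 32 + 1 + (p' - 1) * 32 := by omega
    have a3 := h2 ⟨31, by norm_num⟩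
    have a4 : c β (32 + 1) = 4 := a3
    rw [e1, a2, a4] at a1
    simp only [add_zero] at a1
    rw [h1] at a1
    norm_num at a1
  · by_contra hp
    push Not at hp
    have key : ∀ i : Fin 32, tab i = tab (i + ⟨p', hp⟩) := by
      intro i
      have a1 := hE' (i + 2 + 31 * m') (by omega)
      have a2 := c_add_mul hE.2 m' (i + 1) (by omega)
      have e1 : (i : ℕ) + 2 + 31 * m' + m' = i + 1 + 1 + m' * 32 := by ring
      rw [e1, a2] at a1
      have a3 : c β (i + 1 + 1 + m' * 32 + p') = c β (i + 1 + p' + 1) := by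
        have := c_add_mul hE.2 m' (i + 1 + p') (by omega)
        rw [← this]
        congr 1
        ring
      rw [a3] at a1
      rw [← h2 i, a1]
      rw [← h2 (i + ⟨p', hp⟩)]
      have hv : ((i + ⟨p', hp⟩ : Fin 32) : ℕ) = (i + p') % 32 := by
        simp [Fin.val_add]
      rw [hv]
      have a4 := c_add_mul hE.2 ((i + p') / 32) ((i + p') % 32 + 1) (by omega)
      rw [← a4]
      congr 1
      omega
    have key2 : ∀ q : Fin 32, (∀ i : Fin 32, tab i = tab (i + q)) → q = 0 := by decide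
    have := key2 ⟨p', hp⟩ key
    have h3 : p' = 0 := by simpa using congrArg Fin.val this
    omega

/-- **Counterexample.** There is a Salem number `β` of degree `6`, with minimal polynomial
`x⁶ - 5x⁵ - 3x⁴ + 2x³ - 3x² - 5x + 1`, with preperiod length `1` and period length `32`, whose
co-factor is the explicit polynomial `Q` of degree `27`, which is not reciprocal. Hence the
co-factor of a Salem number of degree six with preperiod one is not always reciprocal. -/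
theorem result :
    (∃ β : ℝ, IsSalem β ∧
      minpoly ℤ β = X ^ 6 - 5 * X ^ 5 - 3 * X ^ 4 + 2 * X ^ 3 - 3 * X ^ 2 - 5 * X + 1 ∧
      Shape β 1 32 ∧ Pk β (1 + 32) - Pk β 1 = minpoly ℤ β * Q ∧ Q.reverse ≠ Q) ∧
    ¬ (∀ β : ℝ, IsSalem β → (minpoly ℤ β).natDegree = 6 → ∀ p : ℕ, Shape β 1 p →
      ∀ Q : ℤ[X], Pk β (1 + p) - Pk β 1 = minpoly ℤ β * Q → Q.reverse = Q) := by
  obtain ⟨β, hL, hU, hP⟩ := exists_beta
  have hβ1 : 1 < β := lt_trans (by norm_num) hL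
  have hroot : ∀ n : ℤ, n ^ 3 + (-5) * n ^ 2 + ((-3) - 3) * n + (2 - 2 * (-5)) ≠ 0 := by
    intro n h
    have h5 : (n : ZMod 5) ^ 3 + (-5) * (n : ZMod 5) ^ 2 + ((-3) - 3) * (n : ZMod 5)
        + (2 - 2 * (-5)) = 0 := by
      exact_mod_cast congrArg (Int.cast : ℤ → ZMod 5) h
    revert h5
    generalize (n : ZMod 5) = t
    revert t
    decide
  obtain ⟨hS, hmin⟩ := salem6 hroot 0 (by norm_num) (by norm_num)
    (by rw [aeval_G]; norm_num) (by rw [aeval_G]; norm_num) (by rw [aeval_G]; norm_num) hβ1 hP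
  obtain ⟨h0, h1, h2⟩ := digits hL hU hP
  have hsh := shape h0 h1 h2
  have hcomp := companion h1 h2
  rw [← hmin] at hcomp
  refine ⟨⟨β, hS, ?_, hsh, hcomp, Q_not_reciprocal⟩, ?_⟩
  · rw [hmin, P]
    simp
    ring
  · intro h
    exact Q_not_reciprocal (h β hS (by rw [hmin, P_natDegree]) 32 hsh Q hcomp)

end Pool.Agent.Results.MP_9c9d6b_nt.NonReciprocal
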